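import Pool.Agent.V7H19.DS.Tri
import Mathlib.Data.Nat.Choose.Lucas

/-!
# Digits (helper19)
-/

set_option autoImplicit false

namespace Pool.Agent.V7H19.DS

section

variable (p : ℕ) [hpf : Fact p.Prime]

lemma lucas (n k : ℕ) : (n.choose k : ZMod p) =
    ((n % p).choose (k % p) : ZMod p) * ((n / p).choose (k / p) : ZMod p) := by
  have h := Choose.choose_modEq_choose_mod_mul_choose_div_nat (n := n) (k := k) (p := p)
  have h2 := (ZMod.natCast_eq_natCast_iff _ _ _).mpr h
  rw [h2]
  push_cast
  ring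

omit hpf in
lemma sub_pow_div (i m : ℕ) : (m - p ^ (i + 1)) / p = m / p - p ^ i := by
  rw [show p ^ (i + 1) = p * p ^ i by ring]
  exact Nat.sub_mul_div _ _ _

omit hpf in
lemma dg_pos_le : ∀ (i m : ℕ), 1 ≤ m / p ^ i % p → p ^ i ≤ m := by
  intro i m h
  by_contra h1
  rw [Nat.div_eq_of_lt (by omega)] at h
  simp at h

omit hpf in
lemma sub_pow_mod (i m : ℕ) (h : p ^ (i + 1) ≤ m) : (m - p ^ (i + 1)) % p = m % p := by
  have h1 : m = (m - p ^ (i + 1)) + p * p ^ i := by
    rw [show p * p ^ i = p ^ (i + 1) by ring]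
    omega
  conv_rhs => rw [h1]
  rw [Nat.add_mul_mod_self_left]

/-- a digit which is too large -/
lemma zero_of_dg : ∀ (t n k : ℕ), n / p ^ t % p < k / p ^ t % p → (n.choose k : ZMod p) = 0
  | 0, n, k, h => by
      rw [lucas p n k]
      simp only [pow_zero, Nat.div_one] at h
      rw [Nat.choose_eq_zero_of_lt h]
      simp
  | t + 1, n, k, h => by
      rw [lucas p n k, zero_of_dg t (n / p) (k / p) (by
        rw [Nat.div_div_eq_div_mul, Nat.div_div_eq_div_mul,
          show p * p ^ t = p ^ (t + 1) by ring]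
        exact h)]
      simp

/-- the coefficient at a power of `p` -/
lemma ne_pow : ∀ (i m : ℕ), 1 ≤ m / p ^ i % p → (m.choose (p ^ i) : ZMod p) ≠ 0
  | 0, m, h => by
      simp only [pow_zero, Nat.div_one] at h
      rw [pow_zero, Nat.choose_one_right]
      intro h0
      rw [ZMod.natCast_eq_zero_iff] at h0
      rw [Nat.mod_eq_zero_of_dvd h0] at h
      omega
  | i + 1, m, h => by
      have hp := hpf.out.pos
      rw [lucas p m (p ^ (i + 1)), show p ^ (i + 1) = p * p ^ i by ring, Nat.mul_mod_right,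
        Nat.mul_div_cancel_left _ hp, Nat.choose_zero_right]
      have := ne_pow i (m / p) (by
        rw [Nat.div_div_eq_div_mul, show p * p ^ i = p ^ (i + 1) by ring]
        exact h)
      simpa using this

/-- the other digits do not change -/
lemma dg_sub : ∀ (i j m : ℕ), i ≠ j → 1 ≤ m / p ^ i % p → (m - p ^ i) / p ^ j % p = m / p ^ j % p
  | 0, 0, m, h, _ => absurd rfl h
  | 0, j + 1, m, _, h => by
      simp only [pow_zero, Nat.div_one] at h ⊢
      rw [show p ^ (j + 1) = p * p ^ j by ring, ← Nat.div_div_eq_div_mul, ← Nat.div_div_eq_div_mul]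
      have hp := hpf.out.pos
      have h1 : (m - 1) / p = m / p := by
        have h2 := Nat.div_add_mod m p
        have h3 := Nat.mod_lt m hp
        have h4 : m - 1 = p * (m / p) + (m % p - 1) := by omega
        rw [h4, Nat.mul_add_div hp, Nat.div_eq_of_lt (show m % p - 1 < p by omega), add_zero]
      rw [h1]
  | i + 1, 0, m, _, h => by
      simp only [pow_zero, Nat.div_one]
      exact sub_pow_mod p i m (dg_pos_le p (i + 1) m h)
  | i + 1, j + 1, m, h0, h => by
      rw [show p ^ (j + 1) = p * p ^ j by ring, ← Nat.div_div_eq_div_mul, ← Nat.div_div_eq_div_mul,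
        sub_pow_div]
      exact dg_sub i j (m / p) (by omega) (by
        rw [Nat.div_div_eq_div_mul, show p * p ^ i = p ^ (i + 1) by ring]
        exact h)

lemma dg_add (i m r : ℕ) (h : m / p ^ i % p = r) (hr : r + 2 ≤ p) : (m + p ^ i) / p ^ i % p = r + 1 := by
  have hp := hpf.out.pos
  rw [Nat.add_div_right _ (pow_pos hp i), Nat.add_mod, h,
    Nat.mod_eq_of_lt (show 1 < p by omega), Nat.mod_eq_of_lt (by omega)]

/-- the last exponent of a smaller letter -/
lemma last_zero : ∀ (i n m : ℕ), n < m → 1 ≤ m / p ^ i % p → n / p ^ i % p = m / p ^ i % p →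
    (n.choose (m - p ^ i) : ZMod p) = 0
  | 0, n, m, h, h1, h2 => by
      have hp := hpf.out.pos
      simp only [pow_zero, Nat.div_one] at h1 h2 ⊢
      have e1 := Nat.div_add_mod m p
      have e2 := Nat.div_add_mod n p
      have e3 := Nat.mod_lt m hp
      have h3 : (m - 1) / p = m / p := by
        have h4 : m - 1 = p * (m / p) + (m % p - 1) := by omega
        rw [h4, Nat.mul_add_div hp, Nat.div_eq_of_lt (show m % p - 1 < p by omega), add_zero]
      have h5 : n / p < m / p := by
        by_contra h6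
        have h7 : p * (m / p) ≤ p * (n / p) := Nat.mul_le_mul_left p (by omega)
        omega
      rw [lucas p n (m - 1), h3, Nat.choose_eq_zero_of_lt h5]
      simp
  | i + 1, n, m, h, h1, h2 => by
      have hp := hpf.out.pos
      have e1 := Nat.div_add_mod m p
      have e2 := Nat.div_add_mod n p
      rw [lucas p n (m - p ^ (i + 1)), sub_pow_mod p i m (dg_pos_le p (i + 1) m h1), sub_pow_div]
      rcases Nat.lt_or_ge (n / p) (m / p) with h3 | h3
      · rw [last_zero i (n / p) (m / p) h3 (by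
          rw [Nat.div_div_eq_div_mul, show p * p ^ i = p ^ (i + 1) by ring]
          exact h1) (by
          rw [Nat.div_div_eq_div_mul, Nat.div_div_eq_div_mul, show p * p ^ i = p ^ (i + 1) by ring]
          exact h2)]
        simp
      · have h7 : p * (m / p) ≤ p * (n / p) := Nat.mul_le_mul_left p h3
        have h8 : n % p < m % p := by omega
        rw [Nat.choose_eq_zero_of_lt h8]
        simp

/-- two digits of `2 b` are given -/
theorem tri_digits (i j r r' : ℕ) (hij : i ≠ j) (hr : 1 ≤ r) (hrp : r + 2 ≤ p) (hr' : 1 ≤ r')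
    (hrp' : r' + 2 ≤ p) (B : ℕ → Prop) (hB : ∀ b, B b → 2 * b / p ^ i % p = r ∧ 2 * b / p ^ j % p = r') :
    Tri (ZMod p) B (fun n => if n % 2 = 0 then p ^ i else p ^ j) := by
  have hp := hpf.out.pos
  -- facts for the two places
  have key : ∀ (s : ℕ) (t : ℕ), 1 ≤ t → t + 2 ≤ p → (∀ b, B b → 2 * b / p ^ s % p = t) →
      (∀ a, B a → ((2 * a).choose (2 * a - p ^ s) : ZMod p) ≠ 0) ∧
      (∀ a, B a → 1 ≤ p ^ s ∧ p ^ s ≤ 2 * a) ∧
      (∀ b a, B b → B a → ((2 * b).choose (2 * a + p ^ s) : ZMod p) = 0) ∧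
      (∀ b a, B b → B a → b < a → ((2 * b).choose (2 * a - p ^ s) : ZMod p) = 0) := by
    intro s t h1 h2 h3
    refine ⟨?_, ?_, ?_, ?_⟩
    · intro a ha
      have h4 := dg_pos_le p s (2 * a) (by rw [h3 a ha]; exact h1)
      rw [Nat.choose_symm h4]
      exact ne_pow p s (2 * a) (by rw [h3 a ha]; exact h1)
    · intro a ha
      exact ⟨Nat.one_le_pow _ _ hp, dg_pos_le p s (2 * a) (by rw [h3 a ha]; exact h1)⟩
    · intro b a hb ha
      apply zero_of_dg p s
      rw [h3 b hb, dg_add p s (2 * a) t (h3 a ha) h2]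
      omega
    · intro b a hb ha hab
      exact last_zero p s (2 * b) (2 * a) (by omega) (by rw [h3 a ha]; exact h1)
        (by rw [h3 a ha, h3 b hb])
  have key2 : ∀ (s s' t t' : ℕ), s ≠ s' → 1 ≤ t → t' + 2 ≤ p → (∀ b, B b → 2 * b / p ^ s % p = t) →
      (∀ b, B b → 2 * b / p ^ s' % p = t') →
      ∀ b a, B b → B a → ((2 * b).choose (2 * a - p ^ s + p ^ s') : ZMod p) = 0 := by
    intro s s' t t' hss h1 h2 h3 h4 b a hb ha
    apply zero_of_dg p s'
    have h5 := dg_sub p s s' (2 * a) hss (by rw [h3 a ha]; exact h1)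
    rw [h4 a ha] at h5
    rw [h4 b hb, dg_add p s' (2 * a - p ^ s) t' h5 h2]
    omega
  have hi := fun b hb => (hB b hb).1
  have hj := fun b hb => (hB b hb).2
  obtain ⟨a1, a2, a3, a4⟩ := key i r hr hrp hi
  obtain ⟨c1, c2, c3, c4⟩ := key j r' hr' hrp' hj
  constructor
  · intro a n ha
    split_ifs
    · exact a1 a ha
    · exact c1 a ha
  · intro a n ha
    split_ifs
    · exact a2 a ha
    · exact c2 a ha
  · intro b a n hb ha
    split_ifs
    · exact a3 b a hb ha
    · exact c3 b a hb ha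
  · intro b a n hb ha
    by_cases hn : n % 2 = 0
    · rw [if_neg (show ¬ (n + 1) % 2 = 0 by omega), if_pos hn]
      exact key2 j i r' r (Ne.symm hij) hr' hrp hj hi b a hb ha
    · rw [if_pos (show (n + 1) % 2 = 0 by omega), if_neg hn]
      exact key2 i j r r' hij hr hrp' hi hj b a hb ha
  · intro b a n hb ha hab
    split_ifs
    · exact a4 b a hb ha hab
    · exact c4 b a hb ha hab

end

end Pool.Agent.V7H19.DS
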