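import Pool.Agent.N568.BK.DS3

/-!
# A criterion modulo a prime for the independence of the words (helper19)
-/

set_option autoImplicit false

namespace Pool.Agent.V7H19.DS

open Finset
open Pool.Agent.N568.BK (AR cR cR_map cR_rat mon mon_length bump bump_concat)

section

variable {R : Type} [CommRing R]

/-- the binomial coefficient with its sign -/
def sg (R : Type) [CommRing R] (b x : ℕ) : R := (-1) ^ x * ((2 * b).choose x : R)

lemma sg_two (b : ℕ) : sg R b (2 * b) = 1 := by
  unfold sg
  rw [(even_two_mul b).neg_one_pow, Nat.choose_self]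
  simp

lemma sg_zero {b x : ℕ} (h : ((2 * b).choose x : R) = 0) : sg R b x = 0 := by
  unfold sg
  rw [h, mul_zero]

/-- the contribution of the last entry -/
def E (b : ℕ) : (List ℕ → R) → List ℕ → ℕ → R
  | _, [], _ => 0
  | g, [k], y => (if y = 2 * b then g [k] else 0) -
      (if 2 * b ≤ k + y then sg R b y * g [k + y - 2 * b] else 0)
  | g, k :: l :: e, y => E b (fun e' => g (k :: e')) (l :: e) y

lemma E_concat (b : ℕ) : ∀ (e : List ℕ) (g : List ℕ → R) (k y : ℕ),
    E b g (e ++ [k]) y = (if y = 2 * b then g (e ++ [k]) else 0) -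
      (if 2 * b ≤ k + y then sg R b y * g (e ++ [k + y - 2 * b]) else 0)
  | [], g, k, y => rfl
  | [x], g, k, y => rfl
  | x :: z :: e, g, k, y => by
      have h := E_concat b (z :: e) (fun e' => g (x :: e')) k y
      exact h

/-- one step, if the entries between the first and the last are harmless -/
theorem AR_gen (b : ℕ) : ∀ (m : List ℕ) (x y : ℕ) (g : List ℕ → R),
    (∀ z ∈ m, z = 2 * b ∨ ((2 * b).choose z : R) = 0) →
    (((2 * b).choose x : R) = 0 → AR b g (x :: (m ++ [y])) = E b g (x :: m) y) ∧
    (x = 2 * b → AR b g (x :: (m ++ [y])) = E b g (x :: m) y + g (m ++ [y]))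
  | [], x, y, g, _ => by
      have h1 : AR b g (x :: ([] ++ [y])) = (if y = 2 * b then g [x] else 0) +
          if 2 * b ≤ x + y then (sg R b x - sg R b y) * g [x + y - 2 * b] else 0 := rfl
      have h2 : E b g [x] y = (if y = 2 * b then g [x] else 0) -
          (if 2 * b ≤ x + y then sg R b y * g [x + y - 2 * b] else 0) := rfl
      constructor
      · intro hx
        rw [h1, h2, sg_zero hx]
        split_ifs <;> ring
      · intro hx
        rw [h1, h2, hx, sg_two, if_pos (show 2 * b ≤ 2 * b + y by omega),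
          if_pos (show 2 * b ≤ 2 * b + y by omega), show 2 * b + y - 2 * b = y by omega]
        show _ = _ + g [y]
        ring
  | z :: m, x, y, g, hm => by
      have hz := hm z (by simp)
      obtain ⟨i1, i2⟩ := AR_gen b m z y (fun e' => g (x :: e'))
        (fun z' hz' => hm z' (List.mem_cons_of_mem _ hz'))
      have h1 : AR b g (x :: (z :: m ++ [y])) = AR b (fun e' => g (x :: e')) (z :: (m ++ [y])) +
          if 2 * b ≤ x + z then (sg R b x - sg R b z) * g ((x + z - 2 * b) :: (m ++ [y])) else 0 := rfl
      have h2 : E b g (x :: z :: m) y = E b (fun e' => g (x :: e')) (z :: m) y := rfl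
      have h3 : g (z :: m ++ [y]) = g (z :: (m ++ [y])) := rfl
      rcases hz with hz | hz
      · have i3 := i2 hz
        constructor
        · intro hx
          rw [h1, h2, i3, sg_zero hx, hz, sg_two, if_pos (by omega),
            show x + 2 * b - 2 * b = x by omega]
          ring
        · intro hx
          rw [h1, h2, i3, hx, hz, sg_two]
          have h4 : g (2 * b :: m ++ [y]) = g (2 * b :: (m ++ [y])) := rfl
          rw [h4]
          simp
      · have i3 := i1 hz
        constructor
        · intro hx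
          rw [h1, h2, i3, sg_zero hx, sg_zero hz]
          simp
        · intro hx
          rw [h1, h2, i3, h3, hx, sg_two, sg_zero hz, if_pos (by omega),
            show 2 * b + z - 2 * b = z by omega]
          ring

/-- the divisibility conditions -/
structure Crit (R : Type) [CommRing R] (B : ℕ → Prop) : Prop where
  pos : ∀ b, B b → 1 ≤ b
  ne : ∀ b, B b → ((2 * b).choose b : R) ≠ 0
  c2 : ∀ b a, B b → B a → b ≠ a → ((2 * b).choose a : R) = 0
  c3 : ∀ b a a', B b → B a → B a' → a + a' = 2 * b ∨ ((2 * b).choose (a + a') : R) = 0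
  c5 : ∀ b a a', B b → B a → B a' → ((2 * b).choose (2 * a + a') : R) = 0

variable {B : ℕ → Prop}

lemma shape : ∀ (u : List ℕ) (a a' : ℕ), (∀ x ∈ a :: a' :: u, B x) →
    ∃ (x : ℕ) (m : List ℕ), mon (a :: a' :: u) = x :: m ++ [a] ∧
      (∃ c c', B c ∧ B c' ∧ x = 2 * c + c') ∧ ∀ z ∈ m, ∃ c c', B c ∧ B c' ∧ z = c + c'
  | [], a, a', h => ⟨2 * a' + a, [], rfl, ⟨a', a, h a' (by simp), h a (by simp), rfl⟩,
      fun z hz => absurd hz (by simp)⟩
  | a'' :: u, a, a', h => by
      obtain ⟨x, m, h1, h2, h3⟩ := shape u a' a'' (fun x hx => h x (List.mem_cons_of_mem _ hx))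
      refine ⟨x, m ++ [a' + a], ?_, h2, ?_⟩
      · have h4 : mon (a :: a' :: a'' :: u) = bump a (mon (a' :: a'' :: u)) := rfl
        rw [h4, h1, bump_concat]
        simp
      · intro z hz
        rw [List.mem_append, List.mem_singleton] at hz
        rcases hz with hz | hz
        · exact h3 z hz
        · exact ⟨a', a, h a' (by simp), h a (by simp), hz⟩

/-- the diagonal factor -/
def eps (R : Type) [CommRing R] (a : ℕ) : R := - sg R a a

/-- one letter -/
theorem AR_mon [Nontrivial R] (hC : Crit R B) (a a' b : ℕ) (u : List ℕ)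
    (hw : ∀ x ∈ a :: a' :: u, B x) (hb : B b) (g : List ℕ → R) :
    AR b g (mon (a :: a' :: u)) = if b = a then eps R a * g (mon (a' :: u)) else 0 := by
  obtain ⟨x, m, h1, ⟨c, c', hc, hc', hx⟩, h3⟩ := shape u a a' hw
  have ha : B a := hw a (by simp)
  have h4 : mon (a :: a' :: u) = bump a (mon (a' :: u)) := rfl
  have hne : mon (a' :: u) ≠ [] := by
    intro h
    have := mon_length (a' :: u)
    rw [h] at this
    simp at this
  obtain ⟨e, k, hk⟩ := (List.eq_nil_or_concat (mon (a' :: u))).resolve_left hne
  have hk' : mon (a' :: u) = e ++ [k] := by simpa using hk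
  have h5 : mon (a :: a' :: u) = (e ++ [k + a]) ++ [a] := by
    rw [h4, hk', bump_concat]
    simp
  have h6 : x :: m = e ++ [k + a] := by
    rw [h5] at h1
    exact (List.append_inj_left' h1 rfl).symm
  have h7 : AR b g (mon (a :: a' :: u)) = E b g (x :: m) a := by
    rw [h1]
    refine (AR_gen b m x a g ?_).1 ?_
    · intro z hz
      obtain ⟨d, d', hd, hd', rfl⟩ := h3 z hz
      exact hC.c3 b d d' hb hd hd'
    · rw [hx]
      exact hC.c5 b c c' hb hc hc'
  have hab : a ≠ 2 * b := by
    intro h
    by_cases h8 : b = a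
    · have := hC.pos a ha
      omega
    · have h9 := hC.c2 b a hb ha h8
      rw [h, Nat.choose_self] at h9
      simp at h9
  rw [h7, h6, E_concat, if_neg hab, zero_sub]
  by_cases h8 : b = a
  · subst h8
    rw [if_pos rfl, if_pos (by omega), show k + b + b - 2 * b = k by omega, hk']
    unfold eps
    ring
  · rw [if_neg h8, sg_zero (hC.c2 b a hb ha h8)]
    simp

/-- the product of the diagonal factors -/
def epsP (R : Type) [CommRing R] (w : List ℕ) : R := (w.dropLast.map (eps R)).prod

/-- the matrix -/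
theorem cR_mon [Nontrivial R] (hC : Crit R B) : ∀ (d : ℕ) (w' w : List ℕ),
    w'.length = d + 1 → w.length = d + 1 → (∀ x ∈ w', B x) → (∀ x ∈ w, B x) →
    cR R w' (mon w) = if w' = w then epsP R w else 0
  | 0, w', w, hw', hw, _, _ => by
      obtain ⟨b, rfl⟩ := List.length_eq_one_iff.mp hw'
      obtain ⟨a, rfl⟩ := List.length_eq_one_iff.mp hw
      have h1 : cR R [b] (mon [a]) = if 2 * a = 2 * b then cR R [] [] else 0 := rfl
      have h2 : cR R [] [] = 1 := by
        unfold cR
        rw [if_pos rfl]
      rw [h1, h2]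
      by_cases hab : a = b
      · subst hab
        simp [epsP]
      · rw [if_neg (by omega), if_neg]
        intro h
        exact hab (by simpa using h.symm)
  | d + 1, w', w, hw', hw, hl', hl => by
      rcases w' with _ | ⟨b, w'⟩
      · simp at hw'
      rcases w with _ | ⟨a, w⟩
      · simp at hw
      rcases w with _ | ⟨a', u⟩
      · simp at hw
      have h1 : cR R (b :: w') (mon (a :: a' :: u)) = AR b (cR R w') (mon (a :: a' :: u)) := rfl
      rw [h1, AR_mon hC a a' b u hl (hl' b (by simp)),
        cR_mon hC d w' (a' :: u) (by simpa using hw') (by simpa using hw)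
          (fun x hx => hl' x (List.mem_cons_of_mem _ hx)) (fun x hx => hl x (List.mem_cons_of_mem _ hx))]
      by_cases hab : b = a
      · subst hab
        rw [if_pos rfl]
        by_cases hww : w' = a' :: u
        · rw [if_pos hww, if_pos (by rw [hww])]
          unfold epsP
          rw [List.dropLast_cons_cons, List.map_cons, List.prod_cons]
        · rw [if_neg hww, if_neg (by simpa using hww), mul_zero]
      · rw [if_neg hab, if_neg]
        intro h
        rw [List.cons.injEq] at h
        exact hab h.1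

end

section

variable (p : ℕ) [hpf : Fact p.Prime] {B : ℕ → Prop}

lemma epsP_ne (hC : Crit (ZMod p) B) (w : List ℕ) (hw : ∀ x ∈ w, B x) : epsP (ZMod p) w ≠ 0 := by
  unfold epsP
  apply List.prod_ne_zero
  intro h
  rw [List.mem_map] at h
  obtain ⟨a, ha, h1⟩ := h
  have h2 := hC.ne a (hw a (List.mem_of_mem_dropLast ha))
  unfold eps sg at h1
  rw [neg_eq_zero, mul_eq_zero] at h1
  rcases h1 with h1 | h1
  · exact (pow_ne_zero _ (neg_ne_zero.mpr one_ne_zero)) h1
  · exact h2 h1

/-- the coefficient vectors are independent -/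
theorem indep_c (hC : Crit (ZMod p) B) (d : ℕ) (F : Finset (List ℕ))
    (hF : ∀ w ∈ F, w.length = d + 1 ∧ ∀ x ∈ w, B x)
    (lam : List ℕ → ℚ) (h : ∀ w ∈ F, ∑ w' ∈ F, lam w' * cR ℚ w' (mon w) = 0) :
    ∀ w ∈ F, lam w = 0 := by
  classical
  set M : Matrix F F ℤ := fun w' w => cR ℤ w'.1 (mon w.1) with hM
  have hdet : M.det ≠ 0 := by
    intro h0
    have h1 : (Int.castRingHom (ZMod p)) M.det = 0 := by rw [h0, map_zero]
    rw [RingHom.map_det] at h1
    have h2 : (Int.castRingHom (ZMod p)).mapMatrix M =
        Matrix.diagonal fun w : F => epsP (ZMod p) w.1 := by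
      ext w' w
      rw [RingHom.mapMatrix_apply, Matrix.map_apply, hM]
      rw [cR_map (Int.castRingHom (ZMod p)), cR_mon hC d w'.1 w.1 (hF _ w'.2).1 (hF _ w.2).1
        (hF _ w'.2).2 (hF _ w.2).2, Matrix.diagonal_apply]
      by_cases hww : w' = w
      · rw [if_pos (by rw [hww]), if_pos hww, hww]
      · rw [if_neg (fun h => hww (Subtype.ext h)), if_neg hww]
    rw [h2, Matrix.det_diagonal, Finset.prod_eq_zero_iff] at h1
    obtain ⟨w, _, hw⟩ := h1
    exact epsP_ne p hC w.1 (hF _ w.2).2 hw
  have hdet' : ((Int.castRingHom ℚ).mapMatrix M).det ≠ 0 := by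
    rw [← RingHom.map_det]
    simpa using hdet
  have h3 := Matrix.eq_zero_of_vecMul_eq_zero hdet' (v := fun w => lam w.1) (by
    funext w
    have h4 := h w.1 w.2
    rw [← Finset.sum_attach] at h4
    rw [Matrix.vecMul, Pi.zero_apply]
    refine Eq.trans ?_ h4
    unfold dotProduct
    rw [← Finset.attach_eq_univ]
    refine Finset.sum_congr rfl fun w' _ => ?_
    congr 1
    show (Int.castRingHom ℚ) (cR ℤ w'.1 (mon w.1)) = _
    rw [cR_map (Int.castRingHom ℚ)])
  intro w hw
  exact congrFun h3 ⟨w, hw⟩

end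

end Pool.Agent.V7H19.DS
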