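import Pool.Agent.V7H19.DS.Crit

/-!
# A triangular criterion modulo a prime (helper19)
-/

set_option autoImplicit false

namespace Pool.Agent.V7H19.DS

open Finset
open Pool.Agent.N568.BK (AR cR cR_map cR_rat)

/-- add to the last entry and append a new one -/
def bmp (δ z : ℕ) : List ℕ → List ℕ
  | [] => [z]
  | [k] => [k + δ, z]
  | k :: l :: e => k :: bmp δ z (l :: e)

lemma bmp_concat (δ z : ℕ) : ∀ (e : List ℕ) (k : ℕ), bmp δ z (e ++ [k]) = e ++ [k + δ] ++ [z]
  | [], k => rfl
  | [x], k => rfl
  | x :: y :: e, k => by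
      have h := bmp_concat δ z (y :: e) k
      show x :: bmp δ z (y :: (e ++ [k])) = _
      rw [show y :: (e ++ [k]) = y :: e ++ [k] from rfl, h]
      rfl

/-- the test monomials -/
def mo (L : ℕ → ℕ) : ℕ → List ℕ → List ℕ
  | _, [] => []
  | _, [a] => [2 * a]
  | j, a :: a' :: u => bmp (L j) (2 * a - L j) (mo L (j + 1) (a' :: u))

lemma mo_length (L : ℕ → ℕ) : ∀ (w : List ℕ) (j : ℕ), (mo L j w).length = w.length
  | [], _ => rfl
  | [a], _ => rfl
  | a :: a' :: u, j => by
      have h := mo_length L (a' :: u) (j + 1)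
      have hne : mo L (j + 1) (a' :: u) ≠ [] := by
        intro h0
        rw [h0] at h
        simp at h
      obtain ⟨e, k, hk⟩ := (List.eq_nil_or_concat (mo L (j + 1) (a' :: u))).resolve_left hne
      have hk' : mo L (j + 1) (a' :: u) = e ++ [k] := by simpa using hk
      have h2 : mo L j (a :: a' :: u) = bmp (L j) (2 * a - L j) (mo L (j + 1) (a' :: u)) := rfl
      rw [h2, hk', bmp_concat]
      rw [hk'] at h
      simp at h ⊢
      omega

/-- the conditions -/
structure Tri (R : Type) [CommRing R] (B : ℕ → Prop) (L : ℕ → ℕ) : Prop where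
  ne : ∀ a j, B a → ((2 * a).choose (2 * a - L j) : R) ≠ 0
  pos : ∀ a j, B a → 1 ≤ L j ∧ L j ≤ 2 * a
  first : ∀ b a j, B b → B a → ((2 * b).choose (2 * a + L j) : R) = 0
  mid : ∀ b a j, B b → B a → ((2 * b).choose (2 * a - L (j + 1) + L j) : R) = 0
  last : ∀ b a j, B b → B a → b < a → ((2 * b).choose (2 * a - L j) : R) = 0

variable {R : Type} [CommRing R] {B : ℕ → Prop} {L : ℕ → ℕ}

lemma shape2 (L : ℕ → ℕ) : ∀ (u : List ℕ) (a a' j : ℕ), (∀ x ∈ a :: a' :: u, B x) →
    ∃ (x : ℕ) (m : List ℕ), mo L j (a :: a' :: u) = x :: m ++ [2 * a - L j] ∧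
      (∃ c i, B c ∧ x = 2 * c + L i) ∧ ∀ z ∈ m, ∃ c i, B c ∧ z = 2 * c - L (i + 1) + L i
  | [], a, a', j, h => ⟨2 * a' + L j, [], rfl, ⟨a', j, h a' (by simp), rfl⟩,
      fun z hz => absurd hz (by simp)⟩
  | a'' :: u, a, a', j, h => by
      obtain ⟨x, m, h1, h2, h3⟩ := shape2 L u a' a'' (j + 1)
        (fun x hx => h x (List.mem_cons_of_mem _ hx))
      refine ⟨x, m ++ [2 * a' - L (j + 1) + L j], ?_, h2, ?_⟩
      · have h4 : mo L j (a :: a' :: a'' :: u) =
          bmp (L j) (2 * a - L j) (mo L (j + 1) (a' :: a'' :: u)) := rfl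
        rw [h4, h1, bmp_concat]
        simp
      · intro z hz
        rw [List.mem_append, List.mem_singleton] at hz
        rcases hz with hz | hz
        · exact h3 z hz
        · exact ⟨a', j, h a' (by simp), hz⟩

/-- one letter -/
theorem AR_mo [Nontrivial R] (hC : Tri R B L) (a a' b j : ℕ) (u : List ℕ)
    (hw : ∀ x ∈ a :: a' :: u, B x) (hb : B b) (hab : b ≤ a) (g : List ℕ → R) :
    AR b g (mo L j (a :: a' :: u)) =
      if b = a then - sg R a (2 * a - L j) * g (mo L (j + 1) (a' :: u)) else 0 := by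
  obtain ⟨x, m, h1, ⟨c, i, hc, hx⟩, h3⟩ := shape2 L u a a' j hw
  have ha : B a := hw a (by simp)
  have hne : mo L (j + 1) (a' :: u) ≠ [] := by
    intro h
    have := mo_length L (a' :: u) (j + 1)
    rw [h] at this
    simp at this
  obtain ⟨e, k, hk⟩ := (List.eq_nil_or_concat (mo L (j + 1) (a' :: u))).resolve_left hne
  have hk' : mo L (j + 1) (a' :: u) = e ++ [k] := by simpa using hk
  have h5 : mo L j (a :: a' :: u) = (e ++ [k + L j]) ++ [2 * a - L j] := by
    have h4 : mo L j (a :: a' :: u) = bmp (L j) (2 * a - L j) (mo L (j + 1) (a' :: u)) := rfl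
    rw [h4, hk', bmp_concat]
  have h6 : x :: m = e ++ [k + L j] := by
    rw [h5] at h1
    exact (List.append_inj_left' h1 rfl).symm
  have h7 : AR b g (mo L j (a :: a' :: u)) = E b g (x :: m) (2 * a - L j) := by
    rw [h1]
    refine (AR_gen b m x (2 * a - L j) g ?_).1 ?_
    · intro z hz
      obtain ⟨d, i, hd, rfl⟩ := h3 z hz
      exact Or.inr (hC.mid b d i hb hd)
    · rw [hx]
      exact hC.first b c i hb hc
  obtain ⟨hL1, hL2⟩ := hC.pos a j ha
  have hne2 : 2 * a - L j ≠ 2 * b := by
    intro h
    have h8 : b < a := by omega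
    have h9 := hC.last b a j hb ha h8
    rw [h, Nat.choose_self] at h9
    simp at h9
  rw [h7, h6, E_concat, if_neg hne2, zero_sub]
  by_cases h8 : b = a
  · subst h8
    rw [if_pos rfl, if_pos (by omega), show k + L j + (2 * b - L j) - 2 * b = k by omega, hk']
    ring
  · rw [if_neg h8, sg_zero (hC.last b a j hb ha (by omega))]
    simp

lemma cR_one (b a : ℕ) : cR R [b] [2 * a] = if a = b then 1 else 0 := by
  have h1 : cR R [b] [2 * a] = if 2 * a = 2 * b then cR R [] [] else 0 := rfl
  have h2 : cR R [] [] = 1 := by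
    unfold cR
    rw [if_pos rfl]
  rw [h1, h2]
  by_cases hab : a = b
  · rw [if_pos hab, if_pos (by omega)]
  · rw [if_neg hab, if_neg (by omega)]

/-- the rows are independent -/
theorem tri [IsDomain R] (hC : Tri R B L) : ∀ (d j : ℕ) (F : Finset (List ℕ))
    (_ : ∀ w ∈ F, w.length = d + 1 ∧ ∀ x ∈ w, B x) (v : List ℕ → R)
    (_ : ∀ w ∈ F, ∑ w' ∈ F, v w' * cR R w' (mo L j w) = 0), ∀ w ∈ F, v w = 0
  | 0, j, F, hF, v, h, w, hw => by
      have h1 := h w hw
      obtain ⟨a, rfl⟩ := List.length_eq_one_iff.mp (hF w hw).1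
      rw [sum_eq_single [a]] at h1
      · have h2 : cR R [a] (mo L j [a]) = 1 := by
          show cR R [a] [2 * a] = 1
          rw [cR_one, if_pos rfl]
        rw [h2, mul_one] at h1
        exact h1
      · intro w' hw' hne
        obtain ⟨b, rfl⟩ := List.length_eq_one_iff.mp (hF w' hw').1
        have h2 : cR R [b] (mo L j [a]) = 0 := by
          show cR R [b] [2 * a] = 0
          rw [cR_one, if_neg]
          intro h3
          exact hne (by rw [h3])
        rw [h2, mul_zero]
      · intro h2
        exact absurd hw h2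
  | d + 1, j, F, hF, v, h, w, hw => by
      classical
      by_contra hv
      set S : Finset (List ℕ) := F.filter fun w => v w ≠ 0 with hS
      have hwS : w ∈ S := by
        rw [hS, mem_filter]
        exact ⟨hw, hv⟩
      obtain ⟨w0, hw0, hmax⟩ := S.exists_max_image (fun w => w.headD 0) ⟨w, hwS⟩
      rw [hS, mem_filter] at hw0
      obtain ⟨hw0F, hv0⟩ := hw0
      obtain ⟨hlen0, hB0⟩ := hF w0 hw0F
      rcases w0 with _ | ⟨β, u0⟩
      · simp at hlen0
      have hβ : B β := hB0 β (by simp)
      set Fβ : Finset (List ℕ) := (F.filter fun w => w.headD 0 = β).image List.tail with hFβ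
      have hmem : ∀ u, u ∈ Fβ ↔ β :: u ∈ F := by
        intro u
        rw [hFβ, mem_image]
        constructor
        · rintro ⟨w1, hw1, rfl⟩
          rw [mem_filter] at hw1
          obtain ⟨hw1F, hw1β⟩ := hw1
          have := (hF w1 hw1F).1
          rcases w1 with _ | ⟨c, u1⟩
          · simp at this
          · simp only [List.headD_cons] at hw1β
            subst hw1β
            exact hw1F
        · intro hu
          exact ⟨β :: u, by rw [mem_filter]; exact ⟨hu, rfl⟩, rfl⟩
      have key := tri hC d (j + 1) Fβ (by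
        intro u hu
        have h1 := hF _ ((hmem u).mp hu)
        refine ⟨by simpa using h1.1, fun x hx => h1.2 x (List.mem_cons_of_mem _ hx)⟩)
        (fun u => v (β :: u)) (by
        intro u hu
        have hu' := (hmem u).mp hu
        obtain ⟨hul, huB⟩ := hF _ hu'
        rcases u with _ | ⟨a', u⟩
        · simp at hul
        have h1 := h _ hu'
        have h2 : ∑ w' ∈ F, v w' * cR R w' (mo L j (β :: a' :: u)) =
            ∑ w' ∈ F.filter (fun w => w.headD 0 = β), v w' * cR R w' (mo L j (β :: a' :: u)) := by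
          rw [sum_filter]
          refine sum_congr rfl fun w' hw' => ?_
          split_ifs with h3
          · rfl
          · by_cases hv' : v w' = 0
            · rw [hv', zero_mul]
            · have h4 := hmax w' (by rw [hS, mem_filter]; exact ⟨hw', hv'⟩)
              have h5 := hF w' hw'
              rcases w' with _ | ⟨c, u'⟩
              · simp at h5
              · simp only [List.headD_cons] at h4 h3
                have h6 : cR R (c :: u') (mo L j (β :: a' :: u)) =
                    AR c (cR R u') (mo L j (β :: a' :: u)) := rfl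
                rw [h6, AR_mo hC β a' c j u huB (h5.2 c (by simp)) h4, if_neg h3, mul_zero]
        have h3 : ∑ w' ∈ F.filter (fun w => w.headD 0 = β), v w' * cR R w' (mo L j (β :: a' :: u)) =
            ∑ u' ∈ Fβ, v (β :: u') * cR R (β :: u') (mo L j (β :: a' :: u)) := by
          symm
          refine sum_bij (fun u' _ => β :: u') ?_ ?_ ?_ ?_
          · intro u' hu'
            rw [mem_filter]
            exact ⟨(hmem u').mp hu', rfl⟩
          · intro x _ y _ hxy
            exact (List.cons.inj hxy).2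
          · intro w' hw'
            rw [mem_filter] at hw'
            obtain ⟨hw'F, hw'β⟩ := hw'
            have h5 := (hF w' hw'F).1
            rcases w' with _ | ⟨c, u'⟩
            · simp at h5
            · simp only [List.headD_cons] at hw'β
              subst hw'β
              exact ⟨u', (hmem u').mpr hw'F, rfl⟩
          · intro u' _
            rfl
        rw [h2, h3] at h1
        have h4 : ∑ u' ∈ Fβ, v (β :: u') * cR R (β :: u') (mo L j (β :: a' :: u)) =
            (- sg R β (2 * β - L j)) * ∑ u' ∈ Fβ, v (β :: u') * cR R u' (mo L (j + 1) (a' :: u)) := by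
          rw [mul_sum]
          refine sum_congr rfl fun u' hu' => ?_
          have h6 : cR R (β :: u') (mo L j (β :: a' :: u)) =
              AR β (cR R u') (mo L j (β :: a' :: u)) := rfl
          rw [h6, AR_mo hC β a' β j u huB hβ le_rfl, if_pos rfl]
          ring
        rw [h4] at h1
        refine (mul_eq_zero.mp h1).resolve_left ?_
        rw [neg_eq_zero]
        unfold sg
        exact mul_ne_zero (pow_ne_zero _ (neg_ne_zero.mpr one_ne_zero)) (hC.ne β j hβ))
      exact hv0 (key u0 ((hmem u0).mpr hw0F))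

section

variable (p : ℕ) [hpf : Fact p.Prime]

/-- the coefficient vectors are independent -/
theorem indep_t (hC : Tri (ZMod p) B L) (d : ℕ) (F : Finset (List ℕ))
    (hF : ∀ w ∈ F, w.length = d + 1 ∧ ∀ x ∈ w, B x)
    (lam : List ℕ → ℚ) (h : ∀ w ∈ F, ∑ w' ∈ F, lam w' * cR ℚ w' (mo L 0 w) = 0) :
    ∀ w ∈ F, lam w = 0 := by
  classical
  set M : Matrix F F ℤ := fun w' w => cR ℤ w'.1 (mo L 0 w.1) with hM
  have hdet : M.det ≠ 0 := by
    intro h0
    have h1 : (Int.castRingHom (ZMod p)) M.det = 0 := by rw [h0, map_zero]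
    rw [RingHom.map_det] at h1
    obtain ⟨v, hv, hv1⟩ := Matrix.exists_vecMul_eq_zero_iff.mpr h1
    apply hv
    set v' : List ℕ → ZMod p := fun w => if hw : w ∈ F then v ⟨w, hw⟩ else 0 with hv'
    have h2 := tri hC d 0 F hF v' (by
      intro w hw
      have h3 := congrFun hv1 ⟨w, hw⟩
      rw [Matrix.vecMul, Pi.zero_apply] at h3
      rw [← h3]
      unfold dotProduct
      rw [← Finset.sum_attach, ← Finset.attach_eq_univ]
      refine Finset.sum_congr rfl fun w' _ => ?_
      show v' w'.1 * cR (ZMod p) w'.1 (mo L 0 w) =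
        v w' * (Int.castRingHom (ZMod p)) (cR ℤ w'.1 (mo L 0 w))
      rw [cR_map (Int.castRingHom (ZMod p)), hv']
      simp only
      rw [dif_pos w'.2])
    funext w
    have h4 := h2 w.1 w.2
    rw [hv'] at h4
    simp only at h4
    rw [dif_pos w.2] at h4
    exact h4
  have hdet' : ((Int.castRingHom ℚ).mapMatrix M).det ≠ 0 := by
    rw [← RingHom.map_det]
    simpa using hdet
  have h3 := Matrix.eq_zero_of_vecMul_eq_zero hdet' (v := fun w => lam w.1) (by
    funext w
    have h4 := h w.1 w.2
    rw [← Finset.sum_attach] at h4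
    rw [Matrix.vecMul, Pi.zero_apply]
    refine Eq.trans ?_ h4
    unfold dotProduct
    rw [← Finset.attach_eq_univ]
    refine Finset.sum_congr rfl fun w' _ => ?_
    congr 1
    show (Int.castRingHom ℚ) (cR ℤ w'.1 (mo L 0 w.1)) = _
    rw [cR_map (Int.castRingHom ℚ)])
  intro w hw
  exact congrFun h3 ⟨w, hw⟩

end

end Pool.Agent.V7H19.DS
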